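import Pool.Agent.R717.VBurau2
import Mathlib

/-!
# The image of the virtual integral Burau representation

For every `n ≥ 2` the image of `ρ_v : vB_n → GL_n(ℤ)` consists exactly of the matrices of
`GL_n(ℤ)` all of whose row sums are `1` and whose reduction modulo `2` is a permutation matrix.
-/

namespace Pool.Agent.Results.MP_e5baee_al.VirtualBurauImage

open Matrix Finset Pool.Agent.R717.VBurau

/-- The generators `σ_1, …, σ_{n-1}, τ_1, …, τ_{n-1}` (indexed by `Fin (n - 1)`, i.e. from `0`). -/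
inductive Gen (n : ℕ) : Type
  | sigma (i : Fin (n - 1)) : Gen n
  | tau (i : Fin (n - 1)) : Gen n

/-- `σ_i` in the free group. -/
def fs {n : ℕ} (i : Fin (n - 1)) : FreeGroup (Gen n) := FreeGroup.of (Gen.sigma i)

/-- `τ_i` in the free group. -/
def ft {n : ℕ} (i : Fin (n - 1)) : FreeGroup (Gen n) := FreeGroup.of (Gen.tau i)

/-- The relators of the virtual braid group `vB_n`. -/
inductive Rel (n : ℕ) : FreeGroup (Gen n) → Prop
  | sigma_braid (i j : Fin (n - 1)) (h : (j : ℕ) = i + 1) :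
      Rel n (fs i * fs j * fs i * (fs j * fs i * fs j)⁻¹)
  | sigma_far (i j : Fin (n - 1)) (h : (i : ℕ) + 2 ≤ j ∨ (j : ℕ) + 2 ≤ i) :
      Rel n (fs i * fs j * (fs j * fs i)⁻¹)
  | tau_sq (i : Fin (n - 1)) : Rel n (ft i * ft i)
  | tau_braid (i j : Fin (n - 1)) (h : (j : ℕ) = i + 1) :
      Rel n (ft i * ft j * ft i * (ft j * ft i * ft j)⁻¹)
  | tau_far (i j : Fin (n - 1)) (h : (i : ℕ) + 2 ≤ j ∨ (j : ℕ) + 2 ≤ i) :
      Rel n (ft i * ft j * (ft j * ft i)⁻¹)
  | mixed_far (i j : Fin (n - 1)) (h : (i : ℕ) + 2 ≤ j ∨ (j : ℕ) + 2 ≤ i) :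
      Rel n (fs i * ft j * (ft j * fs i)⁻¹)
  | mixed (i j : Fin (n - 1)) (h : (j : ℕ) = i + 1) :
      Rel n (ft i * ft j * fs i * (fs j * ft i * ft j)⁻¹)

/-- The virtual braid group `vB_n`. -/
abbrev VB (n : ℕ) : Type := PresentedGroup {w : FreeGroup (Gen n) | Rel n w}

/-- The generator `σ_i` of `vB_n`. -/
def sigma {n : ℕ} (i : Fin (n - 1)) : VB n := PresentedGroup.of (Gen.sigma i)

/-- The generator `τ_i` of `vB_n`. -/
def tau {n : ℕ} (i : Fin (n - 1)) : VB n := PresentedGroup.of (Gen.tau i)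

/-- The first of the two coordinates on which the generators number `i` act. -/
def lo {n : ℕ} (i : Fin (n - 1)) : Fin n := ⟨i, by omega⟩

/-- The second of the two coordinates on which the generators number `i` act. -/
def hi {n : ℕ} (i : Fin (n - 1)) : Fin n := ⟨i + 1, by omega⟩

/-- The matrix `I ⊕ (2, -1; 1, 0) ⊕ I`. -/
def sigmaMat {n : ℕ} (i : Fin (n - 1)) : Matrix (Fin n) (Fin n) ℤ := fun a b =>
  if a = lo i then (if b = lo i then 2 else if b = hi i then -1 else 0)
  else if a = hi i then (if b = lo i then 1 else 0)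
  else (if a = b then 1 else 0)

/-- The matrix `I ⊕ (0, 1; 1, 0) ⊕ I`. -/
def tauMat {n : ℕ} (i : Fin (n - 1)) : Matrix (Fin n) (Fin n) ℤ := fun a b =>
  if a = lo i then (if b = hi i then 1 else 0)
  else if a = hi i then (if b = lo i then 1 else 0)
  else (if a = b then 1 else 0)

lemma lo_ne_hi {n : ℕ} (i : Fin (n - 1)) : lo i ≠ hi i := by
  intro h
  have := congrArg Fin.val h
  simp [lo, hi] at this

/-- images of the generators -/
def genImg {n : ℕ} : Gen n → GL (Fin n) ℤ
  | Gen.sigma i => gA (lo i) (hi i) (lo_ne_hi i)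
  | Gen.tau i => gT (lo i) (hi i)

lemma hi_eq_lo {n : ℕ} {i j : Fin (n - 1)} (h : (j : ℕ) = i + 1) : hi i = lo j := by
  apply Fin.ext
  simp [lo, hi, h]

lemma far_ne {n : ℕ} {i j : Fin (n - 1)} (h : (i : ℕ) + 2 ≤ j ∨ (j : ℕ) + 2 ≤ i) :
    lo i ≠ lo j ∧ lo i ≠ hi j ∧ hi i ≠ lo j ∧ hi i ≠ hi j := by
  refine ⟨?_, ?_, ?_, ?_⟩ <;> intro e <;> have := congrArg Fin.val e <;>
    simp only [lo, hi] at this <;> omega

lemma braidA' {n : ℕ} {a b c d : Fin n} (hab : a ≠ b) (hcd : c ≠ d) (hbc : b = c) (had : a ≠ d) :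
    gA a b hab * gA c d hcd * gA a b hab = gA c d hcd * gA a b hab * gA c d hcd := by
  subst hbc
  exact braidA hab hcd had

lemma braidT' {n : ℕ} {a b c d : Fin n} (hab : a ≠ b) (hcd : c ≠ d) (hbc : b = c) (had : a ≠ d) :
    gT a b * gT c d * gT a b = gT c d * gT a b * gT c d := by
  subst hbc
  exact braidT hab hcd had

lemma mixedTA' {n : ℕ} {a b c d : Fin n} (hab : a ≠ b) (hcd : c ≠ d) (hbc : b = c) (had : a ≠ d) :
    gT a b * gT c d * gA a b hab = gA c d hcd * gT a b * gT c d := by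
  subst hbc
  exact mixedTA hab hcd had

lemma lo_ne_hi' {n : ℕ} {i j : Fin (n - 1)} (h : (j : ℕ) = i + 1) : lo i ≠ hi j := by
  intro e
  have := congrArg Fin.val e
  simp only [lo, hi] at this
  omega

lemma rels_ok {n : ℕ} : ∀ r ∈ {w : FreeGroup (Gen n) | Rel n w}, FreeGroup.lift genImg r = 1 := by
  intro r hr
  have hs : ∀ i : Fin (n - 1), FreeGroup.lift genImg (fs i) = gA (lo i) (hi i) (lo_ne_hi i) := by
    intro i; unfold fs; rw [FreeGroup.lift_apply_of]; rfl
  have ht : ∀ i : Fin (n - 1), FreeGroup.lift genImg (ft i) = gT (lo i) (hi i) := by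
    intro i; unfold ft; rw [FreeGroup.lift_apply_of]; rfl
  induction hr with
  | sigma_braid i j h =>
    simp only [map_mul, map_inv, hs]
    rw [braidA' (lo_ne_hi i) (lo_ne_hi j) (hi_eq_lo h) (lo_ne_hi' h), mul_inv_cancel]
  | sigma_far i j h =>
    simp only [map_mul, map_inv, hs]
    obtain ⟨h1, h2, h3, h4⟩ := far_ne h
    rw [farA (lo_ne_hi i) (lo_ne_hi j) h1 h2 h3 h4, mul_inv_cancel]
  | tau_sq i =>
    simp only [map_mul, ht]
    apply Units.ext
    exact matT_mul_self _ _
  | tau_braid i j h =>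
    simp only [map_mul, map_inv, ht]
    rw [braidT' (lo_ne_hi i) (lo_ne_hi j) (hi_eq_lo h) (lo_ne_hi' h), mul_inv_cancel]
  | tau_far i j h =>
    simp only [map_mul, map_inv, ht]
    obtain ⟨h1, h2, h3, h4⟩ := far_ne h
    rw [farT h1 h2 h3 h4, mul_inv_cancel]
  | mixed_far i j h =>
    simp only [map_mul, map_inv, hs, ht]
    obtain ⟨h1, h2, h3, h4⟩ := far_ne h
    rw [farAT (lo_ne_hi i) h1 h2 h3 h4, mul_inv_cancel]
  | mixed i j h =>
    simp only [map_mul, map_inv, hs, ht]
    rw [mixedTA' (lo_ne_hi i) (lo_ne_hi j) (hi_eq_lo h) (lo_ne_hi' h), mul_inv_cancel]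

/-- The virtual integral Burau representation. -/
def rho (n : ℕ) : VB n →* GL (Fin n) ℤ := PresentedGroup.toGroup (f := genImg) rels_ok

lemma rho_sigma {n : ℕ} (i : Fin (n - 1)) : rho n (sigma i) = gA (lo i) (hi i) (lo_ne_hi i) :=
  PresentedGroup.toGroup.of _

lemma rho_tau {n : ℕ} (i : Fin (n - 1)) : rho n (tau i) = gT (lo i) (hi i) :=
  PresentedGroup.toGroup.of _

/-- Matrices whose reduction mod `2` is a permutation matrix. -/
def modTwo {n : ℕ} (M : GL (Fin n) ℤ) (π : Equiv.Perm (Fin n)) : Prop :=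
  ∀ i j, ((M.1 i j : ℤ) : ZMod 2) = if j = π i then 1 else 0

lemma modTwo_iff {n : ℕ} (M : GL (Fin n) ℤ) (π : Equiv.Perm (Fin n)) :
    modTwo M π ↔ ∀ i j, Odd (M.1 i j) ↔ j = π i := by
  have key : ∀ z : ℤ, Odd z ↔ ((z : ℤ) : ZMod 2) = 1 := by
    intro z
    have h1 := ZMod.intCast_zmod_eq_zero_iff_dvd
    constructor
    · rintro ⟨k, rfl⟩
      push_cast
      have : (2 : ZMod 2) = 0 := rfl
      rw [this]; ring
    · intro h
      by_contra hcon
      rw [Int.not_odd_iff_even] at hcon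
      obtain ⟨k, rfl⟩ := hcon
      push_cast at h
      have h2 : (k : ZMod 2) + k = 0 := by
        rw [← two_mul]
        have : (2 : ZMod 2) = 0 := rfl
        rw [this]; ring
      rw [h2] at h
      exact absurd h (by decide)
  have key0 : ∀ z : ZMod 2, z ≠ 1 ↔ z = 0 := by decide
  constructor
  · intro h i j
    rw [key, h i j]
    split_ifs with h1
    · simp [h1]
    · simp [h1]
  · intro h i j
    split_ifs with h1
    · rw [← key, h i j]; exact h1
    · rw [← key0]
      intro h2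
      rw [← key, h i j] at h2
      exact h1 h2

lemma modTwo_mul {n : ℕ} {M N : GL (Fin n) ℤ} {π ρ : Equiv.Perm (Fin n)}
    (hM : modTwo M π) (hN : modTwo N ρ) : modTwo (M * N) (ρ * π) := by
  intro i j
  rw [Units.val_mul, Matrix.mul_apply, Int.cast_sum, Finset.sum_eq_single (π i)]
  · rw [Int.cast_mul, hM i, hN _ j, if_pos rfl, one_mul]
    rfl
  · intro k _ hk
    rw [Int.cast_mul, hM i, if_neg hk, zero_mul]
  · intro hh
    exact absurd (Finset.mem_univ _) hh

lemma modTwo_inv {n : ℕ} {M : GL (Fin n) ℤ} {π : Equiv.Perm (Fin n)}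
    (hM : modTwo M π) : modTwo M⁻¹ π⁻¹ := by
  intro i j
  have h1 : (M.1 * M⁻¹.1) (π⁻¹ i) j = (1 : Matrix (Fin n) (Fin n) ℤ) (π⁻¹ i) j := by
    rw [Units.mul_inv]
  rw [Matrix.mul_apply] at h1
  have h2 := congrArg (Int.cast : ℤ → ZMod 2) h1
  have h0 : π (π⁻¹ i) = i := by simp
  rw [Int.cast_sum, Finset.sum_eq_single i] at h2
  rotate_left
  · intro k _ hk
    rw [Int.cast_mul, hM (π⁻¹ i), h0, if_neg hk, zero_mul]
  · intro hh
    exact absurd (Finset.mem_univ _) hh
  rw [Int.cast_mul, hM (π⁻¹ i), h0, if_pos rfl, one_mul] at h2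
  rw [h2, Matrix.one_apply]
  by_cases h3 : j = π⁻¹ i
  · rw [if_pos h3, if_pos h3.symm]; simp
  · rw [if_neg h3, if_neg (fun e => h3 e.symm)]; simp

lemma rowSum_iff {n : ℕ} (M : GL (Fin n) ℤ) :
    (∀ i, ∑ j, M.1 i j = 1) ↔ M.1 *ᵥ (fun _ => 1) = fun _ => 1 := by
  constructor
  · intro h
    funext i
    simp only [Matrix.mulVec, dotProduct, mul_one]
    exact h i
  · intro h i
    have := congrFun h i
    simpa only [Matrix.mulVec, dotProduct, mul_one] using this

/-- The target subgroup. -/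
def target (n : ℕ) : Subgroup (GL (Fin n) ℤ) where
  carrier := {M | (∀ i, ∑ j, M.1 i j = 1) ∧ ∃ π, modTwo M π}
  mul_mem' := by
    rintro M N ⟨h1, π, h2⟩ ⟨h3, ρ, h4⟩
    refine ⟨?_, ρ * π, modTwo_mul h2 h4⟩
    rw [rowSum_iff] at h1 h3 ⊢
    rw [mul_mulVec, h3, h1]
  one_mem' := by
    refine ⟨?_, 1, ?_⟩
    · rw [rowSum_iff, one_mulVec']
    · intro i j
      rw [Units.val_one, Matrix.one_apply]
      by_cases h : i = j
      · subst h; simp
      · rw [if_neg h, if_neg]
        · simp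
        · simpa using fun e => h e.symm
  inv_mem' := by
    rintro M ⟨h1, π, h2⟩
    refine ⟨?_, π⁻¹, modTwo_inv h2⟩
    rw [rowSum_iff] at h1 ⊢
    have h3 : (M⁻¹ * M).1 *ᵥ (fun _ => (1 : ℤ)) = fun _ => 1 := by
      rw [inv_mul_cancel, one_mulVec']
    rw [mul_mulVec, h1] at h3
    exact h3

lemma gen_mem_target {n : ℕ} (x : Gen n) : genImg x ∈ target n := by
  cases x with
  | sigma i =>
    refine ⟨?_, Equiv.swap (lo i) (hi i), ?_⟩
    · rw [rowSum_iff]
      change (gA (lo i) (hi i) (lo_ne_hi i)).1 *ᵥ _ = _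
      rw [gA_mulVec]
      funext k
      split_ifs <;> norm_num
    · intro a b
      change ((matA (lo i) (hi i) a b : ℤ) : ZMod 2) = _
      unfold matA
      have h := lo_ne_hi i
      have e1 : ((-1 : ℤ) : ZMod 2) = 1 := by decide
      have e2 : ((2 : ℤ) : ZMod 2) = 0 := by decide
      by_cases ha : a = lo i
      · subst ha
        rw [Equiv.swap_apply_left]
        by_cases hb : b = lo i
        · subst hb
          rw [if_pos rfl, if_pos rfl, if_neg h]
          exact e2
        · by_cases hb' : b = hi i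
          · subst hb'; simp [h.symm]
          · simp [hb, hb']
      · by_cases ha' : a = hi i
        · subst ha'
          rw [Equiv.swap_apply_right]
          simp [ha]
        · rw [Equiv.swap_apply_of_ne_of_ne ha ha']
          by_cases hb : a = b
          · subst hb; simp [ha, ha']
          · simp [ha, ha', hb, Ne.symm hb]
  | tau i =>
    refine ⟨?_, Equiv.swap (lo i) (hi i), ?_⟩
    · rw [rowSum_iff]
      change (gT (lo i) (hi i)).1 *ᵥ _ = _
      rw [gT_mulVec]
      funext k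
      split_ifs <;> norm_num
    · intro a b
      change ((matT (lo i) (hi i) a b : ℤ) : ZMod 2) = _
      unfold matT
      have h := lo_ne_hi i
      by_cases ha : a = lo i
      · subst ha
        rw [Equiv.swap_apply_left]
        simp
      · by_cases ha' : a = hi i
        · subst ha'
          rw [Equiv.swap_apply_right]
          simp [ha]
        · rw [Equiv.swap_apply_of_ne_of_ne ha ha']
          by_cases hb : a = b
          · subst hb; simp [ha, ha']
          · simp [ha, ha', hb, Ne.symm hb]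

lemma range_le_target {n : ℕ} : (rho n).range ≤ target n := by
  rintro _ ⟨x, rfl⟩
  have hx : x ∈ Subgroup.closure (Set.range (PresentedGroup.of : Gen n → VB n)) := by
    rw [PresentedGroup.closure_range_of]
    exact Subgroup.mem_top x
  induction hx using Subgroup.closure_induction with
  | mem y hy =>
    obtain ⟨g, rfl⟩ := hy
    have : rho n (PresentedGroup.of g) = genImg g := PresentedGroup.toGroup.of _
    rw [this]
    exact gen_mem_target g
  | one => rw [map_one]; exact one_mem _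
  | mul y z _ _ hy hz => rw [map_mul]; exact mul_mem hy hz
  | inv y _ hy => rw [map_inv]; exact inv_mem hy

/-- all permutation matrices are in the image -/
lemma perm_mem {n : ℕ} (hn : 1 ≤ n) (π : Equiv.Perm (Fin n)) :
    ∃ g ∈ (rho n).range, ∀ x : Fin n → ℤ, g.1 *ᵥ x = x ∘ ⇑π⁻¹ := by
  obtain ⟨m, rfl⟩ : ∃ m, n = m + 1 := ⟨n - 1, by omega⟩
  have hπ : π ∈ Submonoid.closure
      (Set.range fun i : Fin m => Equiv.swap i.castSucc i.succ) := by
    rw [Equiv.Perm.mclosure_swap_castSucc_succ]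
    exact Submonoid.mem_top π
  induction hπ using Submonoid.closure_induction with
  | mem y hy =>
    obtain ⟨i, rfl⟩ := hy
    let i' : Fin (m + 1 - 1) := ⟨i.1, by omega⟩
    refine ⟨rho _ (tau i'), ⟨_, rfl⟩, ?_⟩
    intro x
    rw [rho_tau, gT_mulVec]
    have h1 : lo i' = i.castSucc := by apply Fin.ext; simp [lo, i']
    have h2 : hi i' = i.succ := by apply Fin.ext; simp [hi, i']
    rw [h1, h2]
    funext k
    simp only [Equiv.swap_inv, Function.comp_apply, Equiv.swap_apply_def]
    split_ifs <;> rfl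
  | one =>
    refine ⟨1, one_mem _, ?_⟩
    intro x
    rw [one_mulVec']
    rfl
  | mul y z _ _ hy hz =>
    obtain ⟨g, hg, hgx⟩ := hy
    obtain ⟨g', hg', hgx'⟩ := hz
    refine ⟨g * g', mul_mem hg hg', ?_⟩
    intro x
    rw [mul_mulVec, hgx', hgx]
    funext k
    simp

lemma exists_perm {n : ℕ} {a b c d : Fin n} (hab : a ≠ b) (hcd : c ≠ d) :
    ∃ π : Equiv.Perm (Fin n), π a = c ∧ π b = d := by
  refine ⟨Equiv.swap (Equiv.swap a c b) d * Equiv.swap a c, ?_, ?_⟩
  · rw [Equiv.Perm.mul_apply, Equiv.swap_apply_left]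
    apply Equiv.swap_apply_of_ne_of_ne
    · intro h
      have h2 := congrArg (Equiv.swap a c) h
      rw [Equiv.swap_apply_self, Equiv.swap_apply_right] at h2
      exact hab h2
    · exact hcd
  · rw [Equiv.Perm.mul_apply, Equiv.swap_apply_left]

lemma refl_mem {n : ℕ} {a b : Fin n} (hab : a ≠ b) : gR a b hab ∈ (rho n).range := by
  have hn : 2 ≤ n := by
    by_contra hcon
    have : n ≤ 1 := by omega
    apply hab
    apply Fin.ext
    omega
  let i0 : Fin (n - 1) := ⟨0, by omega⟩
  obtain ⟨π, h1, h2⟩ := exists_perm (lo_ne_hi i0) hab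
  obtain ⟨g, hg, hgx⟩ := perm_mem (by omega) π
  obtain ⟨g', hg', hgx'⟩ := perm_mem (by omega) π⁻¹
  have key : gR a b hab = g * (rho n (sigma i0) * rho n (tau i0)) * g' := by
    apply gl_ext
    intro x
    rw [mul_mulVec, mul_mulVec, mul_mulVec, hgx', hgx, rho_sigma, rho_tau, gT_mulVec, gA_mulVec,
      gR_mulVec]
    have hne := lo_ne_hi i0
    funext k
    simp only [Function.comp_apply, inv_inv]
    by_cases hk : k = a
    · subst hk
      have h3 : π⁻¹ k = lo i0 := by rw [← h1]; simp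
      simp [h3, h1, h2, hne.symm]
    · by_cases hk' : k = b
      · subst hk'
        have h3 : π⁻¹ k = hi i0 := by rw [← h2]; simp
        simp [h3, h2, hne.symm, hk]
      · have h3 : π⁻¹ k ≠ lo i0 := by
          intro e
          apply hk
          rw [← h1, ← e]; simp
        have h4 : π⁻¹ k ≠ hi i0 := by
          intro e
          apply hk'
          rw [← h2, ← e]; simp
        have h5 : π (π⁻¹ k) = k := by simp
        rw [if_neg hk, if_neg h3, if_neg h4, if_neg h3, if_neg h4, h5]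
  rw [key]
  exact mul_mem (mul_mem hg (mul_mem ⟨_, rfl⟩ ⟨_, rfl⟩)) hg'

lemma refls_le_range {n : ℕ} : refls n ≤ (rho n).range := by
  unfold refls
  rw [Subgroup.closure_le]
  rintro g ⟨a, b, hab, rfl⟩
  exact refl_mem hab

/-- **Main theorem.**  For every `n ≥ 2` there is exactly one homomorphism
`ρ : vB_n → GL_n(ℤ)` with the prescribed values on `σ_i` and `τ_i`, and a matrix `M ∈ GL_n(ℤ)` is
in its image iff all its row sums are `1` and there is a permutation `π` such that the entry
`M i j` is odd exactly when `j = π i` (i.e. `M` is a permutation matrix modulo `2`). -/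
theorem result (n : ℕ) (hn : 2 ≤ n) :
    ∃ ρ : VB n →* GL (Fin n) ℤ,
      ((∀ i : Fin (n - 1), (ρ (sigma i) : Matrix (Fin n) (Fin n) ℤ) = sigmaMat i) ∧
        (∀ i : Fin (n - 1), (ρ (tau i) : Matrix (Fin n) (Fin n) ℤ) = tauMat i)) ∧
      (∀ ρ' : VB n →* GL (Fin n) ℤ,
        (∀ i : Fin (n - 1), (ρ' (sigma i) : Matrix (Fin n) (Fin n) ℤ) = sigmaMat i) →
        (∀ i : Fin (n - 1), (ρ' (tau i) : Matrix (Fin n) (Fin n) ℤ) = tauMat i) → ρ' = ρ) ∧
      ∀ M : GL (Fin n) ℤ, M ∈ ρ.range ↔
        ((∀ i, ∑ j, (M : Matrix (Fin n) (Fin n) ℤ) i j = 1) ∧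
          ∃ π : Equiv.Perm (Fin n), ∀ i j,
            Odd ((M : Matrix (Fin n) (Fin n) ℤ) i j) ↔ j = π i) := by
  refine ⟨rho n, ⟨?_, ?_⟩, ?_, ?_⟩
  · intro i; rw [rho_sigma]; rfl
  · intro i; rw [rho_tau]; rfl
  · intro ρ' h1 h2
    apply PresentedGroup.ext
    intro x
    cases x with
    | sigma i =>
      apply Units.ext
      have h3 := h1 i
      have h4 : (rho n (sigma i) : Matrix (Fin n) (Fin n) ℤ) = sigmaMat i := by
        rw [rho_sigma]; rfl
      exact h3.trans h4.symm
    | tau i =>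
      apply Units.ext
      have h3 := h2 i
      have h4 : (rho n (tau i) : Matrix (Fin n) (Fin n) ℤ) = tauMat i := by
        rw [rho_tau]; rfl
      exact h3.trans h4.symm
  · intro M
    constructor
    · intro hM
      obtain ⟨h1, π, h2⟩ := range_le_target hM
      exact ⟨h1, π, (modTwo_iff M π).1 h2⟩
    · rintro ⟨h1, π, h2⟩
      obtain ⟨g, hg, hgx⟩ := perm_mem (by omega) π
      have hentry : ∀ i j, (g * M).1 i j = M.1 (π⁻¹ i) j := by
        intro i j
        have h3 := congrFun (hgx (fun k => M.1 k j)) i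
        rw [Units.val_mul, Matrix.mul_apply]
        simpa [Matrix.mulVec, dotProduct] using h3
      have h4 : g * M ∈ refls n := by
        apply mem_refls
        · intro i
          simp_rw [hentry]
          exact h1 _
        · intro i k hik
          rw [hentry, ← even_iff_two_dvd, ← Int.not_odd_iff_even, h2]
          simpa using fun e : k = i => hik e.symm
        · intro i
          rw [hentry, ← even_iff_two_dvd, Int.not_even_iff_odd, h2]
          simp
      have h5 := refls_le_range h4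
      have h6 : M = g⁻¹ * (g * M) := by group
      rw [h6]
      exact mul_mem (inv_mem hg) h5

end Pool.Agent.Results.MP_e5baee_al.VirtualBurauImage
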